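import Pool.Agent.Q207.HM.LvS

/-!
# Fundamental solutions of linear systems with simple poles on discs and half planes
-/

set_option autoImplicit false

open Matrix

namespace Pool.Agent.Q96.LV

open Pool.Agent.Y119.HY (PG ps ps_add ps_smul ps_sum ps_shift ps_deriv ps_an ps_zero Hf HD Gm entry_le)

/-- the derivative of a power series with coefficients of polynomial growth -/
lemma ps_hasDeriv {c : ℕ → ℂ} (hc : PG c) {z : ℂ} (hz : ‖z‖ < 1) :
    HasDerivAt (ps c) (ps (fun k => ((k : ℂ) + 1) * c (k + 1)) z) z := by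
  have hd : HasDerivAt (ps c) (deriv (ps c) z) z :=
    ((ps_an hc) z (by rwa [Metric.mem_ball, dist_zero_right])).differentiableAt.hasDerivAt
  refine hd.congr_deriv ?_
  obtain ⟨r, hr1, hr2⟩ := exists_between hz
  have hr0 : 0 ≤ r := (norm_nonneg _).trans hr1.le
  have h1 : HasSum (fun m : ℕ => deriv (fun w : ℂ => c m * w ^ m) z) (deriv (fun w : ℂ => ∑' m, c m * w ^ m) z) := by
    refine Complex.hasSum_deriv_of_summable_norm (hc.summable hr0 hr2) (U := Metric.ball 0 r) (fun m => ?_)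
      Metric.isOpen_ball (fun m w hw => ?_) (by rwa [Metric.mem_ball, dist_zero_right])
    · exact ((differentiable_const _).mul (differentiable_id.pow m)).differentiableOn
    · rw [norm_mul, norm_pow]
      refine mul_le_mul_of_nonneg_left (pow_le_pow_left₀ (norm_nonneg _) ?_ _) (norm_nonneg _)
      rw [Metric.mem_ball, dist_zero_right] at hw
      exact hw.le
  have h2 : ∀ m : ℕ, deriv (fun w : ℂ => c m * w ^ m) z = c m * ((m : ℂ) * z ^ (m - 1)) := fun m => by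
    rw [deriv_const_mul _ (differentiableAt_id.pow m), (hasDerivAt_pow m z).deriv]
  simp only [h2] at h1
  show deriv (fun w : ℂ => ∑' m, c m * w ^ m) z = _
  rw [← h1.tsum_eq, h1.summable.tsum_eq_zero_add]
  simp only [Nat.cast_zero, zero_mul, mul_zero, zero_add]
  unfold ps
  refine tsum_congr fun k => ?_
  rw [Nat.add_sub_cancel]
  push_cast
  ring

section disc

variable {n : ℕ} {ι : Type*} [Fintype ι] (a : ι → ℂ) (A : ι → Matrix (Fin n) (Fin n) ℂ)

/-- the coefficients of the solution and of its products with the geometric series -/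
noncomputable def st : ℕ → Matrix (Fin n) (Fin n) ℂ × (ι → Matrix (Fin n) (Fin n) ℂ)
  | 0 => (1, fun _ => 1)
  | k + 1 => (((k : ℂ) + 1)⁻¹ • ∑ i, (-(a i)⁻¹) • (A i * (st k).2 i),
      fun j => (a j)⁻¹ • (st k).2 j + ((k : ℂ) + 1)⁻¹ • ∑ i, (-(a i)⁻¹) • (A i * (st k).2 i))

lemma st_x (k : ℕ) : ((k : ℂ) + 1) • (st a A (k + 1)).1 = ∑ i, (-(a i)⁻¹) • (A i * (st a A k).2 i) := by
  have h1 : ((k : ℂ) + 1) ≠ 0 := by exact_mod_cast Nat.succ_ne_zero k
  show ((k : ℂ) + 1) • (((k : ℂ) + 1)⁻¹ • ∑ i, (-(a i)⁻¹) • (A i * (st a A k).2 i)) = _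
  rw [smul_smul, mul_inv_cancel₀ h1, one_smul]

lemma st_u (k : ℕ) (j : ι) : (st a A (k + 1)).2 j = (a j)⁻¹ • (st a A k).2 j + (st a A (k + 1)).1 := rfl

section norm

attribute [local instance] Matrix.linftyOpNormedAddCommGroup Matrix.linftyOpNormedRing Matrix.linftyOpNormedAlgebra

variable {a}

lemma st_step (ha : ∀ i, 1 ≤ ‖a i‖) {k : ℕ} {M : ℝ} (hM : ∀ i, ‖(st a A k).2 i‖ ≤ M) :
    ‖(st a A (k + 1)).1‖ ≤ (∑ i, ‖A i‖) / ((k : ℝ) + 1) * M := by
  have hk : (0 : ℝ) < (k : ℝ) + 1 := by positivity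
  have hn : ‖((k : ℂ) + 1)⁻¹‖ = 1 / ((k : ℝ) + 1) := by
    rw [norm_inv]
    have : ((k : ℂ) + 1) = (((k : ℝ) + 1 : ℝ) : ℂ) := by push_cast; rfl
    rw [this, Complex.norm_real, Real.norm_of_nonneg hk.le, one_div]
  show ‖((k : ℂ) + 1)⁻¹ • ∑ i, (-(a i)⁻¹) • (A i * (st a A k).2 i)‖ ≤ _
  rw [norm_smul, hn, div_mul_eq_mul_div, div_mul_eq_mul_div, one_mul]
  refine div_le_div_of_nonneg_right ((norm_sum_le _ _).trans ?_) hk.le
  rw [Finset.sum_mul]
  refine Finset.sum_le_sum fun i _ => ?_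
  have h1 : ‖-(a i)⁻¹‖ ≤ 1 := by
    rw [norm_neg, norm_inv]
    exact inv_le_one_of_one_le₀ (ha i)
  calc ‖(-(a i)⁻¹) • (A i * (st a A k).2 i)‖ = ‖-(a i)⁻¹‖ * ‖A i * (st a A k).2 i‖ := norm_smul _ _
    _ ≤ 1 * ‖A i * (st a A k).2 i‖ := mul_le_mul_of_nonneg_right h1 (norm_nonneg _)
    _ = ‖A i * (st a A k).2 i‖ := one_mul _
    _ ≤ ‖A i‖ * ‖(st a A k).2 i‖ := norm_mul_le _ _
    _ ≤ ‖A i‖ * M := mul_le_mul_of_nonneg_left (hM i) (norm_nonneg _)

lemma st_bd (ha : ∀ i, 1 ≤ ‖a i‖) (k : ℕ) (j : ι) :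
    ‖(st a A k).2 j‖ ≤ ‖(1 : Matrix (Fin n) (Fin n) ℂ)‖ * ((k : ℝ) + 1) ^ ⌈∑ i, ‖A i‖⌉₊ := by
  set q : ℕ := ⌈∑ i, ‖A i‖⌉₊ with hq
  set K : ℝ := ∑ i, ‖A i‖ with hK
  have hK0 : 0 ≤ K := Finset.sum_nonneg fun i _ => norm_nonneg _
  induction k generalizing j with
  | zero => simp [st]
  | succ k ih =>
    have hk : (0 : ℝ) < (k : ℝ) + 1 := by positivity
    have h1 : 1 + K / ((k : ℝ) + 1) ≤ (1 + 1 / ((k : ℝ) + 1)) ^ q := by
      have h2 := one_add_mul_le_pow (a := 1 / ((k : ℝ) + 1)) (by have : (0 : ℝ) ≤ 1 / ((k : ℝ) + 1) := by positivity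
                                                                 linarith) q
      refine le_trans ?_ h2
      have : K ≤ q := Nat.le_ceil _
      rw [mul_one_div]
      gcongr
    have h3 := st_step A ha ih
    rw [← hK] at h3
    have h4 : ‖(a j)⁻¹ • (st a A k).2 j‖ ≤ ‖(1 : Matrix (Fin n) (Fin n) ℂ)‖ * ((k : ℝ) + 1) ^ q := by
      rw [norm_smul, norm_inv]
      calc ‖a j‖⁻¹ * ‖(st a A k).2 j‖ ≤ 1 * ‖(st a A k).2 j‖ :=
            mul_le_mul_of_nonneg_right (inv_le_one_of_one_le₀ (ha j)) (norm_nonneg _)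
        _ ≤ _ := by rw [one_mul]; exact ih j
    rw [st_u]
    calc ‖(a j)⁻¹ • (st a A k).2 j + (st a A (k + 1)).1‖ ≤ ‖(a j)⁻¹ • (st a A k).2 j‖ + ‖(st a A (k + 1)).1‖ := norm_add_le _ _
      _ ≤ (1 + K / ((k : ℝ) + 1)) * (‖(1 : Matrix (Fin n) (Fin n) ℂ)‖ * ((k : ℝ) + 1) ^ q) := by linarith
      _ ≤ (1 + 1 / ((k : ℝ) + 1)) ^ q * (‖(1 : Matrix (Fin n) (Fin n) ℂ)‖ * ((k : ℝ) + 1) ^ q) :=
        mul_le_mul_of_nonneg_right h1 (by positivity)
      _ = ‖(1 : Matrix (Fin n) (Fin n) ℂ)‖ * ((1 + 1 / ((k : ℝ) + 1)) * ((k : ℝ) + 1)) ^ q := by rw [mul_pow]; ring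
      _ = ‖(1 : Matrix (Fin n) (Fin n) ℂ)‖ * (((k + 1 : ℕ) : ℝ) + 1) ^ q := by
        congr 2
        push_cast
        field_simp

lemma st_pg_u (ha : ∀ i, 1 ≤ ‖a i‖) (j : ι) (p q : Fin n) : PG fun k => (st a A k).2 j p q :=
  ⟨_, _, fun k => (entry_le _ p q).trans (st_bd A ha k j)⟩

lemma st_pg_x (ha : ∀ i, 1 ≤ ‖a i‖) (p q : Fin n) : PG fun k => (st a A k).1 p q := by
  set K : ℝ := ∑ i, ‖A i‖ with hK
  have hK0 : 0 ≤ K := Finset.sum_nonneg fun i _ => norm_nonneg _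
  refine ⟨(1 + K) * ‖(1 : Matrix (Fin n) (Fin n) ℂ)‖, ⌈K⌉₊, fun k => (entry_le _ p q).trans ?_⟩
  rcases k with _ | k
  · show ‖(1 : Matrix (Fin n) (Fin n) ℂ)‖ ≤ _
    simp only [Nat.cast_zero, zero_add, one_pow, mul_one]
    nlinarith [norm_nonneg (1 : Matrix (Fin n) (Fin n) ℂ)]
  · refine (st_step A ha (st_bd A ha k)).trans ?_
    rw [← hK]
    have hk : (0 : ℝ) < (k : ℝ) + 1 := by positivity
    have h1 : K / ((k : ℝ) + 1) ≤ 1 + K := by
      have : K / ((k : ℝ) + 1) ≤ K := div_le_self hK0 (by linarith [Nat.cast_nonneg (α := ℝ) k])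
      linarith
    have h2 : ((k : ℝ) + 1) ^ ⌈K⌉₊ ≤ (((k + 1 : ℕ) : ℝ) + 1) ^ ⌈K⌉₊ := by
      refine pow_le_pow_left₀ hk.le ?_ _
      push_cast
      linarith
    calc K / ((k : ℝ) + 1) * (‖(1 : Matrix (Fin n) (Fin n) ℂ)‖ * ((k : ℝ) + 1) ^ ⌈K⌉₊) ≤
          (1 + K) * (‖(1 : Matrix (Fin n) (Fin n) ℂ)‖ * (((k + 1 : ℕ) : ℝ) + 1) ^ ⌈K⌉₊) := by
          refine mul_le_mul h1 (mul_le_mul_of_nonneg_left h2 (norm_nonneg _)) (by positivity) (by positivity)
      _ = _ := by ring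

end norm

/-- the solution -/
noncomputable def Xs (x : ℂ) : Matrix (Fin n) (Fin n) ℂ := Hf (fun k => (st a A k).1) x

variable {a}

lemma Xs_zero : Xs a A 0 = 1 := by
  ext i j
  show ps (fun k => (st a A k).1 i j) 0 = _
  rw [ps_zero]
  rfl

lemma ne_of_lt {x b : ℂ} (hx : ‖x‖ < 1) (hb : 1 ≤ ‖b‖) : x - b ≠ 0 := by
  intro h
  rw [sub_eq_zero.1 h] at hx
  exact absurd hb (not_le.2 hx)

lemma Xs_ode (ha : ∀ i, 1 ≤ ‖a i‖) {x : ℂ} (hx : ‖x‖ < 1) :
    HD (Xs a A) ((∑ i, (1 / (x - a i)) • A i) * Xs a A x) x := by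
  intro p q
  refine (ps_hasDeriv (st_pg_x A ha p q) hx).congr_deriv ?_
  have ha0 : ∀ i, a i ≠ 0 := fun i h => by
    have := ha i
    rw [h, norm_zero] at this
    exact absurd this (by norm_num)
  -- the products with the geometric series
  have hU : ∀ (j : ι) (p q : Fin n), ps (fun k => (st a A k).2 j p q) x * (1 - x * (a j)⁻¹) = Xs a A x p q := by
    intro j p q
    have h1 := ps_shift (st_pg_u A ha j p q) hx
    have h2 : (fun k => (st a A (k + 1)).2 j p q) = fun k => (a j)⁻¹ * (st a A k).2 j p q + (st a A (k + 1)).1 p q := by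
      funext k
      rw [st_u]
      rfl
    rw [h2, ps_add ((st_pg_u A ha j p q).smul _) (st_pg_x A ha p q).shift hx, ps_smul] at h1
    have h3 : Xs a A x p q = (st a A 0).1 p q + x * ps (fun k => (st a A (k + 1)).1 p q) x := ps_shift (st_pg_x A ha p q) hx
    have h4 : (st a A 0).2 j p q = (st a A 0).1 p q := rfl
    rw [h3]
    linear_combination h1 + h4
  have hU' : ∀ (j : ι) (p q : Fin n), (-(a j)⁻¹) * ps (fun k => (st a A k).2 j p q) x = (1 / (x - a j)) * Xs a A x p q := by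
    intro j p q
    rw [← hU j p q]
    have h1 := ne_of_lt hx (ha j)
    have h2 := ha0 j
    field_simp
    ring
  have h1 : (fun k : ℕ => ((k : ℂ) + 1) * (st a A (k + 1)).1 p q) =
      fun k => ∑ i, ∑ l, A i p l * ((-(a i)⁻¹) * (st a A k).2 i l q) := by
    funext k
    have h2 := congrFun (congrFun (st_x a A k) p) q
    rw [Matrix.smul_apply, smul_eq_mul] at h2
    rw [h2, Matrix.sum_apply]
    refine Finset.sum_congr rfl fun i _ => ?_
    rw [Matrix.smul_apply, smul_eq_mul, Matrix.mul_apply, Finset.mul_sum]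
    exact Finset.sum_congr rfl fun l _ => by ring
  rw [h1, ps_sum _ (fun i _ => PG.sum _ fun l _ => ((st_pg_u A ha i l q).smul _).smul _) hx]
  rw [Finset.sum_mul, Matrix.sum_apply]
  refine Finset.sum_congr rfl fun i _ => ?_
  rw [ps_sum _ (fun l _ => ((st_pg_u A ha i l q).smul _).smul _) hx, Matrix.smul_mul, Matrix.smul_apply, smul_eq_mul,
    Matrix.mul_apply, Finset.mul_sum]
  refine Finset.sum_congr rfl fun l _ => ?_
  rw [ps_smul, ps_smul, hU']
  ring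

/-- fundamental solutions on the unit disc -/
theorem disc (ha : ∀ i, 1 ≤ ‖a i‖) : ∃ X W : ℂ → Matrix (Fin n) (Fin n) ℂ, ∀ x : ℂ, ‖x‖ < 1 →
    HD X ((∑ i, (1 / (x - a i)) • A i) * X x) x ∧ HD W (-(W x * ∑ i, (1 / (x - a i)) • A i)) x ∧ W x * X x = 1 := by
  have h1 : ∀ x : ℂ, ‖x‖ < 1 → HD (Xs a A) ((∑ i, (1 / (x - a i)) • A i) * Xs a A x) x := fun x hx => Xs_ode A ha hx
  have h2 : ∀ x : ℂ, ‖x‖ < 1 → HD (fun w => (Xs a (fun i => -(A i)ᵀ) w)ᵀ)
      (-((Xs a (fun i => -(A i)ᵀ) x)ᵀ * ∑ i, (1 / (x - a i)) • A i)) x := by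
    intro x hx
    refine (Xs_ode (fun i => -(A i)ᵀ) ha hx).transpose.congr ?_
    rw [transpose_mul, transpose_sum, Finset.mul_sum, Finset.mul_sum, ← Finset.sum_neg_distrib]
    refine Finset.sum_congr rfl fun i _ => ?_
    rw [transpose_smul, transpose_neg, transpose_transpose, smul_neg, Matrix.mul_neg]
  refine ⟨Xs a A, fun w => (Xs a (fun i => -(A i)ᵀ) w)ᵀ, fun x hx => ⟨h1 x hx, h2 x hx, ?_⟩⟩
  have h3 : ∀ x : ℂ, ‖x‖ < 1 → HD (fun w => (Xs a (fun i => -(A i)ᵀ) w)ᵀ * Xs a A w) 0 x := by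
    intro x hx
    refine ((h2 x hx).mul (h1 x hx)).congr ?_
    rw [Matrix.neg_mul, Matrix.mul_assoc, neg_add_cancel]
  have hb : Convex ℝ (Metric.ball (0 : ℂ) 1) := convex_ball 0 1
  ext i j
  have h4 : (fun w => ((Xs a (fun i => -(A i)ᵀ) w)ᵀ * Xs a A w) i j) x =
      (fun w => ((Xs a (fun i => -(A i)ᵀ) w)ᵀ * Xs a A w) i j) 0 := by
    have h5 : DifferentiableOn ℂ (fun w => ((Xs a (fun i => -(A i)ᵀ) w)ᵀ * Xs a A w) i j) (Metric.ball 0 1) := by
      intro w hw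
      rw [Metric.mem_ball, dist_zero_right] at hw
      exact (h3 w hw i j).differentiableAt.differentiableWithinAt
    refine Metric.isOpen_ball.is_const_of_deriv_eq_zero hb.isPreconnected h5 (fun w hw => ?_) ?_ ?_
    · rw [Metric.mem_ball, dist_zero_right] at hw
      exact (h3 w hw i j).deriv
    · rwa [Metric.mem_ball, dist_zero_right]
    · rw [Metric.mem_ball, dist_zero_right, norm_zero]
      exact one_pos
  rw [show ((Xs a (fun i => -(A i)ᵀ) x)ᵀ * Xs a A x) i j = _ from h4]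
  simp only
  rw [Xs_zero, Xs_zero, transpose_one, Matrix.one_mul]

end disc

/-- the fundamental solutions of the hypergeometric type system on discs and half planes -/
theorem chart : Q207.HM.Lv.S_Chart := by
  intro n A B c d hcd hd0 hd1 h0 h1
  have hd0' : (0 : ℝ) < ‖d‖ := norm_pos_iff.2 hd0
  have hd1n : (1 : ℂ) - d ≠ 0 := sub_ne_zero.2 (Ne.symm hd1)
  have hd1' : (0 : ℝ) < ‖1 - d‖ := norm_pos_iff.2 hd1n
  have ha : ∀ i : Fin 3, 1 ≤ ‖(![c / d, (1 - c) / (1 - d), 1] : Fin 3 → ℂ) i‖ := by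
    intro i
    fin_cases i
    · show 1 ≤ ‖c / d‖
      rw [norm_div, le_div_iff₀ hd0', one_mul]
      exact h0
    · show 1 ≤ ‖(1 - c) / (1 - d)‖
      rw [norm_div, le_div_iff₀ hd1', one_mul]
      exact h1
    · show 1 ≤ ‖(1 : ℂ)‖
      rw [norm_one]
  obtain ⟨X, W, hXW⟩ := disc (![A, -B, B - A] : Fin 3 → Matrix (Fin n) (Fin n) ℂ) ha
  refine ⟨fun z => X ((z - c) / (z - d)), fun z => W ((z - c) / (z - d)), fun z hz => ?_⟩
  have hzd : (0 : ℝ) < ‖z - d‖ := (norm_nonneg _).trans_lt hz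
  have hzd' : z - d ≠ 0 := norm_pos_iff.1 hzd
  have hx : ‖(z - c) / (z - d)‖ < 1 := by
    rw [norm_div, div_lt_one hzd]
    exact hz
  have hz0 : z ≠ 0 := by
    rintro rfl
    rw [zero_sub, zero_sub, norm_neg, norm_neg] at hz
    exact absurd hz (not_lt.2 h0)
  have hz1 : 1 - z ≠ 0 := by
    intro h
    rw [← sub_eq_zero.1 h] at hz
    exact absurd hz (not_lt.2 h1)
  have hcd' : c - d ≠ 0 := sub_ne_zero.2 hcd
  obtain ⟨g1, g2, g3⟩ := hXW _ hx
  have hder : HasDerivAt (fun w : ℂ => (w - c) / (w - d)) ((c - d) / (z - d) ^ 2) z := by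
    have := ((hasDerivAt_id z).sub_const c).div ((hasDerivAt_id z).sub_const d) hzd'
    refine this.congr_deriv ?_
    simp only [id]
    congr 1
    ring
  have e0 : (c - d) / (z - d) ^ 2 * (1 / ((z - c) / (z - d) - c / d)) = 1 / z - 1 / (z - d) := by
    have h2 : (z - c) / (z - d) - c / d = -((c - d) * z) / ((z - d) * d) := by
      field_simp
      ring
    rw [h2]
    field_simp
    ring
  have e1 : (c - d) / (z - d) ^ 2 * (1 / ((z - c) / (z - d) - (1 - c) / (1 - d))) = -(1 / (1 - z)) - 1 / (z - d) := by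
    have h2 : (z - c) / (z - d) - (1 - c) / (1 - d) = -((c - d) * (1 - z)) / ((z - d) * (1 - d)) := by
      field_simp
      ring
    rw [h2]
    field_simp
    ring
  have e2 : (c - d) / (z - d) ^ 2 * (1 / ((z - c) / (z - d) - 1)) = -(1 / (z - d)) := by
    have h2 : (z - c) / (z - d) - 1 = -(c - d) / (z - d) := by
      field_simp
      ring
    rw [h2]
    field_simp
  have hG : ((c - d) / (z - d) ^ 2) • (∑ i, (1 / ((z - c) / (z - d) - (![c / d, (1 - c) / (1 - d), 1] : Fin 3 → ℂ) i)) •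
      (![A, -B, B - A] : Fin 3 → Matrix (Fin n) (Fin n) ℂ) i) = Gm A B z := by
    rw [Fin.sum_univ_three]
    simp only [Matrix.cons_val_zero, Matrix.cons_val_one, Matrix.cons_val]
    rw [smul_add, smul_add, smul_smul, smul_smul, smul_smul, e0, e1, e2]
    unfold Gm
    module
  have k1 := Pool.Agent.Y119.HY.HD.comp (f := fun w : ℂ => (w - c) / (w - d)) g1 hder
  have k2 := Pool.Agent.Y119.HY.HD.comp (f := fun w : ℂ => (w - c) / (w - d)) g2 hder
  refine ⟨k1.congr ?_, k2.congr ?_, g3⟩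
  · rw [← Matrix.smul_mul, hG]
  · rw [smul_neg, ← Matrix.mul_smul, hG]

end Pool.Agent.Q96.LV
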